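import Pool.Agent.W749.MT.FreeN

/-!
# Project MT: common facts for STB and STC
-/

set_option autoImplicit false

namespace Pool.Agent.W749.MT

open Pool.Agent.W428.MOT
open Pool.Agent.W426.SM (AffInd gord ford)

/-! ### combinatorial facts -/

section Comb

variable {n r : ℕ}

theorem gord_le (m : Fin r → Fin n → ℕ) (u : Fin n → ℕ) (j : Fin r) :
    gord m u ≤ ∑ i, u i * m j i := by
  have : Nonempty (Fin r) := ⟨j⟩
  exact ciInf_le (OrderBot.bddBelow _) j

theorem exists_gord (m : Fin r → Fin n → ℕ) (u : Fin n → ℕ) (hr : 0 < r) :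
    ∃ j, ∑ i, u i * m j i = gord m u := by
  have : Nonempty (Fin r) := ⟨⟨0, hr⟩⟩
  have := Nat.sInf_mem (Set.range_nonempty fun j : Fin r => ∑ i, u i * m j i)
  obtain ⟨j, hj⟩ := this
  exact ⟨j, hj⟩

theorem mem_amin (m : Fin r → Fin n → ℕ) (u : Fin n → ℕ) (j : Fin r) :
    j ∈ amin m u ↔ ∑ i, u i * m j i = gord m u := by
  simp [amin]

theorem amin_nonempty (m : Fin r → Fin n → ℕ) (u : Fin n → ℕ) (hr : 0 < r) :
    (amin m u).Nonempty := by
  obtain ⟨j, hj⟩ := exists_gord m u hr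
  exact ⟨j, (mem_amin m u j).2 hj⟩

theorem filter_del (m : Fin r → Fin n → ℕ) (u : Fin n → ℕ) :
    (Finset.univ.filter fun j => del m u j = 0) = amin m u := by
  ext j
  have h1 := gord_le m u j
  have h2 : j ∈ (Finset.univ.filter fun j => del m u j = 0) ↔ del m u j = 0 := by simp
  rw [h2, mem_amin]
  unfold del
  omega

theorem mem_free (A : Fin n → ℕ) (m : Fin r → Fin n → ℕ) (J : Finset (Fin n))
    (τ : Finset (Fin r)) (i : Fin n) :
    i ∈ free A m J τ ↔ i ∈ J ∧ A i = 0 ∧ ∀ j ∈ τ, m j i = 0 := by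
  simp [free]

theorem le_of_not_free (A : Fin n → ℕ) (m : Fin r → Fin n → ℕ) (e : ℕ) (J : Finset (Fin n))
    (u : Fin n → ℕ) (N : ℕ) (he : 0 < e) (hA : Adm J u) (hf : ford A m e u ≤ N) (i : Fin n)
    (hi : i ∉ free A m J (amin m u)) : u i ≤ N := by
  rw [mem_free] at hi
  by_cases h1 : i ∈ J
  · by_cases h2 : A i = 0
    · have h3 : ∃ j ∈ amin m u, m j i ≠ 0 := by
        by_contra hc
        push Not at hc
        exact hi ⟨h1, h2, hc⟩
      obtain ⟨j, hj, hm⟩ := h3
      rw [mem_amin] at hj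
      have h4 : u i * m j i ≤ ∑ i, u i * m j i :=
        Finset.single_le_sum (f := fun i => u i * m j i) (fun _ _ => Nat.zero_le _)
          (Finset.mem_univ i)
      have h5 : u i ≤ u i * m j i := Nat.le_mul_of_pos_right _ (Nat.pos_of_ne_zero hm)
      have h6 : gord m u ≤ e * gord m u := Nat.le_mul_of_pos_left _ he
      have h7 : ford A m e u = ∑ i, u i * A i + e * gord m u := rfl
      omega
    · have h4 : u i * A i ≤ ∑ i, u i * A i :=
        Finset.single_le_sum (f := fun i => u i * A i) (fun _ _ => Nat.zero_le _)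
          (Finset.mem_univ i)
      have h5 : u i ≤ u i * A i := Nat.le_mul_of_pos_right _ (Nat.pos_of_ne_zero h2)
      have h7 : ford A m e u = ∑ i, u i * A i + e * gord m u := rfl
      omega
  · have : u i = 0 := by
      by_contra hc
      exact h1 ((hA i).1 hc)
    omega

end Comb

/-! ### dependence of the face polynomials on the coordinates -/

section Dep

variable {F : Type} [Field F] {n r : ℕ}

theorem gbar_congr (m : Fin r → Fin n → ℕ) (c : Fin r → F) (τ : Finset (Fin r))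
    (z w : Fin n → F) (h : ∀ i, (∃ j ∈ τ, m j i ≠ 0) → z i = w i) :
    gbar m c τ z = gbar m c τ w := by
  unfold gbar
  refine Finset.sum_congr rfl fun j hj => ?_
  congr 1
  refine Finset.prod_congr rfl fun i _ => ?_
  by_cases hm : m j i = 0
  · rw [hm, pow_zero, pow_zero]
  · rw [h i ⟨j, hj, hm⟩]

theorem dgbar_congr (m : Fin r → Fin n → ℕ) (c : Fin r → F) (τ : Finset (Fin r)) (i0 : Fin n)
    (z w : Fin n → F) (h : ∀ i, (∃ j ∈ τ, m j i ≠ 0) → z i = w i) :
    dgbar m c τ i0 z = dgbar m c τ i0 w := by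
  unfold dgbar
  refine Finset.sum_congr rfl fun j hj => ?_
  congr 2
  refine Finset.prod_congr rfl fun i _ => ?_
  by_cases hm : m j i = 0
  · have : m j i - (if i = i0 then 1 else 0) = 0 := by rw [hm]; exact Nat.zero_sub _
    rw [this, pow_zero, pow_zero]
  · rw [h i ⟨j, hj, hm⟩]

theorem dgbar_zero (m : Fin r → Fin n → ℕ) (c : Fin r → F) (τ : Finset (Fin r)) (i0 : Fin n)
    (z : Fin n → F) (h : ∀ j ∈ τ, m j i0 = 0) : dgbar m c τ i0 z = 0 := by
  unfold dgbar
  refine Finset.sum_eq_zero fun j hj => ?_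
  rw [h j hj, Nat.cast_zero, zero_mul, mul_zero]

theorem prod_congr' (A : Fin n → ℕ) (z w : Fin n → F) (h : ∀ i, A i ≠ 0 → z i = w i) :
    ∏ i, z i ^ A i = ∏ i, w i ^ A i := by
  refine Finset.prod_congr rfl fun i _ => ?_
  by_cases hm : A i = 0
  · rw [hm, pow_zero, pow_zero]
  · rw [h i hm]

end Dep

/-! ### polynomial functions -/

section PF

variable {K : Type} [Field K] {ι : Type} {n r : ℕ}

theorem IsPF_cb (c : Fin r → K) (j : Fin r) : IsPF (fun _ : Pt K ι => cb c j) :=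
  IsPF.const (c j)

theorem IsPF_gbar (m : Fin r → Fin n → ℕ) (c : Fin r → K) (τ : Finset (Fin r))
    (q : Fin n → ι) : IsPF (fun y : Pt K ι => gbar m (cb c) τ (fun i => y (q i))) := by
  unfold gbar
  refine IsPF.sum _ _ fun j _ => ?_
  exact (IsPF_cb c j).mul (IsPF.prod _ _ fun i _ => (IsPF.coord _).pow _)

theorem IsPF_dgbar (m : Fin r → Fin n → ℕ) (c : Fin r → K) (τ : Finset (Fin r)) (i0 : Fin n)
    (q : Fin n → ι) : IsPF (fun y : Pt K ι => dgbar m (cb c) τ i0 (fun i => y (q i))) := by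
  unfold dgbar
  refine IsPF.sum _ _ fun j _ => ?_
  exact (IsPF_cb c j).mul ((IsPF.natCast _).mul (IsPF.prod _ _ fun i _ => (IsPF.coord _).pow _))

theorem IsPF_prod (A : Fin n → ℕ) (q : Fin n → ι) :
    IsPF (fun y : Pt K ι => ∏ i, y (q i) ^ A i) :=
  IsPF.prod _ _ fun i _ => (IsPF.coord _).pow _

theorem IsPA_gser {N : ℕ} (m : Fin r → Fin n → ℕ) (c : Fin r → K) (δ : Fin r → ℕ) :
    IsPA (fun y : Pt K (Fin n × Fin (N + 1)) => gser m (cb c) δ (arc y)) := by
  unfold gser
  refine IsPA.sum _ _ fun j _ => ?_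
  refine IsPA.mul (IsPA.mul (IsPA.C (IsPF_cb c j)) (IsPA.X.pow _)) ?_
  exact IsPA.prod _ _ fun i _ => (isPA_arc i).pow _

theorem IsPF_update [DecidableEq ι] (p : ι) (i : ι) {H : Pt K ι → AlgebraicClosure K}
    (hH : IsPF H) : IsPF (fun y : Pt K ι => Function.update y p (H y) i) := by
  by_cases h : i = p
  · subst h
    simpa using hH
  · simpa [Function.update_of_ne h] using IsPF.coord (K := K) i

theorem constantCoeff_arc {N : ℕ} (y : Pt K (Fin n × Fin (N + 1))) (i : Fin n) :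
    PowerSeries.constantCoeff (arc y i) = y (i, 0) := by
  rw [← PowerSeries.coeff_zero_eq_constantCoeff_apply]
  simp [arc]

theorem coeff_arc {N : ℕ} (y : Pt K (Fin n × Fin (N + 1))) (i : Fin n) (k : ℕ)
    (h : k < N + 1) : PowerSeries.coeff k (arc y i) = y (i, ⟨k, h⟩) := by
  rw [arc, PowerSeries.coeff_mk, dif_pos h]

end PF

/-! ### additive invariants -/

section MeasSec

variable {K : Type} [Field K] {R : Type} [CommRing R] {ι : Type} [Fintype ι]

theorem χ_empty (M : Meas K R) : M.χ ι (∅ : Set (Pt K ι)) = 0 := by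
  have h := M.add (∅ : Set (Pt K ι)) ∅ Constr.empty Constr.empty (Set.disjoint_empty _)
  rw [Set.union_empty] at h
  have h2 : M.χ ι (∅ : Set (Pt K ι)) + 0 = M.χ ι ∅ + M.χ ι ∅ := by rw [add_zero]; exact h
  exact (add_left_cancel h2).symm

omit [Fintype ι] in
theorem constr_biUnion {α : Type} (s : Finset α) (P : α → Set (Pt K ι))
    (hP : ∀ a, Constr (P a)) : Constr {z | ∃ a ∈ s, z ∈ P a} :=
  Constr.bexFinset s fun a _ => hP a

theorem χ_biUnion (M : Meas K R) {α : Type} [DecidableEq α] (s : Finset α) (S : Set (Pt K ι))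
    (P : α → Set (Pt K ι)) (hS : Constr S) (hP : ∀ a, Constr (P a))
    (hd : ∀ a b, a ≠ b → Disjoint (P a) (P b)) :
    M.χ ι (S ∩ {z | ∃ a ∈ s, z ∈ P a}) = ∑ a ∈ s, M.χ ι (S ∩ P a) := by
  induction s using Finset.induction_on with
  | empty =>
    have : S ∩ {z | ∃ a ∈ (∅ : Finset α), z ∈ P a} = ∅ := by
      ext z
      simp
    rw [this, χ_empty, Finset.sum_empty]
  | insert b s hb ih =>
    have e : S ∩ {z | ∃ a ∈ insert b s, z ∈ P a} =
        (S ∩ P b) ∪ (S ∩ {z | ∃ a ∈ s, z ∈ P a}) := by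
      ext z
      constructor
      · rintro ⟨h1, a, ha, h2⟩
        rcases Finset.mem_insert.1 ha with rfl | ha
        · exact Or.inl ⟨h1, h2⟩
        · exact Or.inr ⟨h1, a, ha, h2⟩
      · rintro (⟨h1, h2⟩ | ⟨h1, a, ha, h2⟩)
        · exact ⟨h1, b, Finset.mem_insert_self _ _, h2⟩
        · exact ⟨h1, a, Finset.mem_insert_of_mem ha, h2⟩
    rw [e, M.add _ _ (hS.inter (hP b)) (hS.inter (constr_biUnion s P hP)) ?_, ih,
      Finset.sum_insert hb]
    rw [Set.disjoint_left]
    rintro z ⟨_, h1⟩ ⟨_, a, ha, h2⟩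
    have hne : b ≠ a := by
      rintro rfl
      exact hb ha
    exact Set.disjoint_left.1 (hd b a hne) h1 h2

theorem χ_cover (M : Meas K R) {α : Type} [Fintype α] [DecidableEq α] (S : Set (Pt K ι))
    (P : α → Set (Pt K ι)) (hS : Constr S) (hP : ∀ a, Constr (P a))
    (hd : ∀ a b, a ≠ b → Disjoint (P a) (P b)) (hc : ∀ z ∈ S, ∃ a, z ∈ P a) :
    M.χ ι S = ∑ a, M.χ ι (S ∩ P a) := by
  rw [← χ_biUnion M Finset.univ S P hS hP hd]
  congr 1
  ext z
  constructor
  · intro h
    obtain ⟨a, ha⟩ := hc z h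
    exact ⟨h, a, Finset.mem_univ _, ha⟩
  · rintro ⟨h, _⟩
    exact h

end MeasSec

/-! ### constructibility of `Y0` -/

section Y0

variable {K : Type} [Field K] {n : ℕ}

theorem constr_Y0 (x : Fin n → K) (N : ℕ) (u : Fin n → ℕ) : Constr (Y0 x N u) := by
  refine Constr.and ?_ (Constr.and ?_ ?_)
  · refine Constr.all fun i => Constr.all fun j => Constr.imp' fun _ => ?_
    exact Constr.eqz (IsPF.coord _)
  · refine Constr.all fun i => Constr.imp' fun _ => ?_
    exact Constr.ne (IsPF.coord _) IsPF.zero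
  · refine Constr.all fun i => Constr.imp' fun _ => ?_
    exact Constr.eq (IsPF.coord _) (IsPF.const _)

theorem constr_Nrm (x : Fin n → K) (N : ℕ) (Fr : Finset (Fin n))
    (E : Finset (Fin n × Fin (2 * N + 1 + 1)))
    (T : Set (Pt K (Fin n × Fin (2 * N + 1 + 1)))) (hT : Constr T) :
    Constr (Nrm x N Fr E T) := by
  refine Constr.inter ?_ hT
  refine Constr.and ?_ (Constr.and ?_ (Constr.and ?_ ?_))
  · refine Constr.all fun p => Constr.imp' fun _ => Constr.imp' fun _ => ?_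
    exact Constr.eqz (IsPF.coord _)
  · refine Constr.all fun i => Constr.imp' fun _ => ?_
    exact Constr.ne (IsPF.coord _) IsPF.zero
  · refine Constr.all fun i => Constr.imp' fun _ => ?_
    exact Constr.eq (IsPF.coord _) (IsPF.const _)
  · refine Constr.ballFinset _ fun i _ => ?_
    exact Constr.eq (IsPF.coord _) IsPF.one

end Y0

end Pool.Agent.W749.MT
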