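import Pool.Agent.W749.MT.Com

/-!
# Project MT, part STC: the strata with `l ≥ 1`
-/

set_option autoImplicit false

namespace Pool.Agent.W749.MT.StC

open Pool.Agent.W428.MOT Pool.Agent.W749.MT
open Pool.Agent.W426.SM (AffInd gord ford)

section Defs

variable {K : Type} [Field K] {n r : ℕ}

/-- the coefficients `0, …, s` of `gser`, then the coordinates `y (i0, k)` -/
noncomputable def vv {N : ℕ} (m : Fin r → Fin n → ℕ) (c : Fin r → K) (δ : Fin r → ℕ) (i0 : Fin n)
    (s : ℕ) (y : Pt K (Fin n × Fin (N + 1))) (k : ℕ) : AlgebraicClosure K :=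
  if k ≤ s then PowerSeries.coeff k (gser m (cb c) δ (arc y)) else PowerSeries.coeff k (arc y i0)

/-- `i0` is the first index at which the partial derivative does not vanish -/
def QQ {ι : Type} (m : Fin r → Fin n → ℕ) (c : Fin r → K) (τ : Finset (Fin r)) (q : Fin n → ι)
    (i0 : Fin n) : Set (Pt K ι) :=
  {y | (∀ i, i < i0 → dgbar m (cb c) τ i (fun i => y (q i)) = 0) ∧
    dgbar m (cb c) τ i0 (fun i => y (q i)) ≠ 0}

/-- the conditions on the `v_k` -/
def CC {N : ℕ} (A : Fin n → ℕ) (m : Fin r → Fin n → ℕ) (c : Fin r → K) (e : ℕ) (δ : Fin r → ℕ)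
    (l : ℕ) (i0 : Fin n) (s : ℕ) : Set (Pt K (Fin n × Fin (N + 1))) :=
  {y | (∀ k < l, vv m c δ i0 s y k = 0) ∧ (∏ i, y (i, 0) ^ A i) * (vv m c δ i0 s y l) ^ e = 1}

theorem constr_QQ {ι : Type} (m : Fin r → Fin n → ℕ) (c : Fin r → K) (τ : Finset (Fin r))
    (q : Fin n → ι) (i0 : Fin n) : Constr (QQ m c τ q i0) := by
  refine Constr.and ?_ ?_
  · exact Constr.all fun i => Constr.imp' fun _ => Constr.eqz (IsPF_dgbar m c τ i q)
  · exact Constr.ne (IsPF_dgbar m c τ i0 q) IsPF.zero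

theorem IsPF_vv {N : ℕ} (m : Fin r → Fin n → ℕ) (c : Fin r → K) (δ : Fin r → ℕ) (i0 : Fin n)
    (s k : ℕ) : IsPF (fun y : Pt K (Fin n × Fin (N + 1)) => vv m c δ i0 s y k) := by
  unfold vv
  split_ifs
  · exact IsPA_gser m c δ k
  · exact isPA_arc i0 k

theorem constr_CC {N : ℕ} (A : Fin n → ℕ) (m : Fin r → Fin n → ℕ) (c : Fin r → K) (e : ℕ)
    (δ : Fin r → ℕ) (l : ℕ) (i0 : Fin n) (s : ℕ) :
    Constr (CC (N := N) A m c e δ l i0 s) := by
  refine Constr.and ?_ ?_
  · exact Constr.allLt l fun k _ => Constr.eqz (IsPF_vv m c δ i0 s k)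
  · exact Constr.eq ((IsPF_prod A fun i => (i, 0)).mul ((IsPF_vv m c δ i0 s l).pow e)) IsPF.one

theorem QQ_disjoint {ι : Type} (m : Fin r → Fin n → ℕ) (c : Fin r → K) (τ : Finset (Fin r))
    (q : Fin n → ι) (a b : Fin n) (h : a ≠ b) : Disjoint (QQ m c τ q a) (QQ m c τ q b) := by
  rw [Set.disjoint_left]
  rintro y ⟨h1, h2⟩ ⟨h3, h4⟩
  rcases lt_or_gt_of_ne h with h | h
  · exact h2 (h3 a h)
  · exact h4 (h1 b h)

theorem QQ_cover {ι : Type} (m : Fin r → Fin n → ℕ) (c : Fin r → K) (τ : Finset (Fin r))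
    (q : Fin n → ι) (y : Pt K ι) (h : ∃ i, dgbar m (cb c) τ i (fun i => y (q i)) ≠ 0) :
    ∃ i0, y ∈ QQ m c τ q i0 := by
  obtain ⟨i, hi⟩ := h
  obtain ⟨i0, h1, h2⟩ := WellFounded.has_min (IsWellFounded.wf : WellFounded (α := Fin n) (· < ·))
    {i | dgbar m (cb c) τ i (fun i => y (q i)) ≠ 0} ⟨i, hi⟩
  refine ⟨i0, fun j hj => ?_, h1⟩
  by_contra hc
  exact h2 j hc hj

/-- replacing one coordinate changes the arc -/
theorem arc_update {N : ℕ} (z : Pt K (Fin n × Fin (N + 1))) (i0 : Fin n) (s : ℕ) (hs : s < N + 1) :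
    arc z = Function.update (arc (Function.update z (i0, ⟨s, hs⟩) 0)) i0
      (arc (Function.update z (i0, ⟨s, hs⟩) 0) i0 +
        PowerSeries.C (z (i0, ⟨s, hs⟩)) * PowerSeries.X ^ s) := by
  funext i
  by_cases h : i = i0
  · subst h
    rw [Function.update_self]
    ext k
    rw [map_add, PowerSeries.coeff_C_mul, PowerSeries.coeff_X_pow]
    by_cases hk : k < N + 1
    · rw [coeff_arc _ _ _ hk, coeff_arc _ _ _ hk]
      by_cases hks : k = s
      · subst hks
        rw [Function.update_self, if_pos rfl, mul_one, zero_add]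
      · rw [Function.update_of_ne, if_neg hks, mul_zero, add_zero]
        intro hc
        apply hks
        have := congrArg (fun p : Fin n × Fin (N + 1) => (p.2 : ℕ)) hc
        exact this
    · have h1 : ∀ y : Pt K (Fin n × Fin (N + 1)), PowerSeries.coeff k (arc y i) = 0 := by
        intro y
        rw [arc, PowerSeries.coeff_mk, dif_neg hk]
      rw [h1, h1, if_neg (by omega), mul_zero, add_zero]
  · rw [Function.update_of_ne h]
    ext k
    by_cases hk : k < N + 1
    · rw [coeff_arc _ _ _ hk, coeff_arc _ _ _ hk, Function.update_of_ne]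
      intro hc
      exact h (congrArg Prod.fst hc)
    · have h1 : ∀ y : Pt K (Fin n × Fin (N + 1)), PowerSeries.coeff k (arc y i) = 0 := by
        intro y
        rw [arc, PowerSeries.coeff_mk, dif_neg hk]
      rw [h1, h1]

theorem coeff_arc_update {N : ℕ} (z : Pt K (Fin n × Fin (N + 1))) (i0 : Fin n) (s : ℕ)
    (hs : s < N + 1) (w : AlgebraicClosure K) (i : Fin n) (k : ℕ) (hk : i = i0 → k ≠ s) :
    PowerSeries.coeff k (arc (Function.update z (i0, ⟨s, hs⟩) w) i) =
      PowerSeries.coeff k (arc z i) := by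
  by_cases h : k < N + 1
  · rw [coeff_arc _ _ _ h, coeff_arc _ _ _ h, Function.update_of_ne]
    intro hc
    exact hk (congrArg Prod.fst hc) (congrArg (fun p : Fin n × Fin (N + 1) => (p.2 : ℕ)) hc)
  · rw [arc, arc, PowerSeries.coeff_mk, PowerSeries.coeff_mk, dif_neg h, dif_neg h]

end Defs

section Step

variable {K : Type} [Field K] {n r : ℕ} {R : Type} [CommRing R]

theorem step (h2 : S_Sub) (h3 : S_Tay) (M : Meas K R) (A : Fin n → ℕ) (m : Fin r → Fin n → ℕ)
    (c : Fin r → K) (e : ℕ) (x : Fin n → K) (N : ℕ) (u : Fin n → ℕ) (l : ℕ) (i0 : Fin n)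
    (hl : l ≤ 2 * N + 1 - u i0) (s : ℕ) (hs : s + 1 ≤ l) :
    M.χ _ (Y0 x N u ∩ (QQ m c (amin m u) (fun i => (i, 0)) i0 ∩
        CC A m c e (del m u) l i0 (s + 1))) =
      M.χ _ (Y0 x N u ∩ (QQ m c (amin m u) (fun i => (i, 0)) i0 ∩
        CC A m c e (del m u) l i0 s)) := by
  classical
  set τ := amin m u with hτ
  set δ := del m u with hδ
  have hsN : s + 1 < 2 * N + 1 + 1 := by omega
  set p : Fin n × Fin (2 * N + 1 + 1) := (i0, ⟨s + 1, hsN⟩) with hp
  have hp0 : ∀ i : Fin n, (i, (0 : Fin (2 * N + 1 + 1))) ≠ p := by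
    intro i hc
    have := congrArg (fun p : Fin n × Fin (2 * N + 1 + 1) => (p.2 : ℕ)) hc
    simp [hp] at this
  have hc0 : ∀ (z : Pt K (Fin n × Fin (2 * N + 1 + 1))) (w : AlgebraicClosure K) (i : Fin n),
      Function.update z p w (i, 0) = z (i, 0) := fun z w i => Function.update_of_ne (hp0 i) _ _
  have hV : ∀ t, Constr (Y0 x N u ∩ (QQ m c τ (fun i => (i, (0 : Fin (2 * N + 1 + 1)))) i0 ∩
        CC A m c e δ l i0 t)) := fun t =>
    (constr_Y0 x N u).inter ((constr_QQ m c τ _ i0).inter (constr_CC A m c e δ l i0 t))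
  refine h2 M _ _ p (fun y => dgbar m (cb c) τ i0 (fun i => y (i, 0)))
    (fun y => PowerSeries.coeff (s + 1) (gser m (cb c) δ (arc (Function.update y p 0))))
    (hV _) (hV _) (IsPF_dgbar m c τ i0 _)
    ((IsPA_gser m c δ (s + 1)).comp (fun y => Function.update y p 0)
      (fun i => IsPF_update p i IsPF.zero)) ?_ ?_ ?_ ?_ ?_
  · intro z w
    simp only [hc0]
  · intro z w
    simp only [Function.update_idem]
  · rintro z ⟨_, h, _⟩
    exact h.2
  · rintro z ⟨_, h, _⟩
    exact h.2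
  · intro z _
    set w := (fun y : Pt K (Fin n × Fin (2 * N + 1 + 1)) =>
      dgbar m (cb c) τ i0 (fun i => y (i, 0))) z * z p +
      (fun y : Pt K (Fin n × Fin (2 * N + 1 + 1)) =>
        PowerSeries.coeff (s + 1) (gser m (cb c) δ (arc (Function.update y p 0)))) z with hw
    have hz0 : ∀ i, Function.update z p w (i, 0) = z (i, 0) := hc0 z w
    have hY : Function.update z p w ∈ Y0 x N u ↔ z ∈ Y0 x N u := by
      have h5 : ∀ i (j : Fin (2 * N + 1 + 1)), 2 * N + 1 - u i < (j : ℕ) →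
          Function.update z p w (i, j) = z (i, j) := by
        intro i j hj
        refine Function.update_of_ne ?_ _ _
        intro hc
        have h6 : i = i0 := congrArg Prod.fst hc
        have h7 : (j : ℕ) = s + 1 := congrArg (fun p : Fin n × Fin (2 * N + 1 + 1) => (p.2 : ℕ)) hc
        subst h6
        omega
      constructor
      · rintro ⟨h6, h7, h8⟩
        refine ⟨fun i j hj => ?_, fun i hi => ?_, fun i hi => ?_⟩
        · rw [← h5 i j hj]
          exact h6 i j hj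
        · rw [← hz0 i]
          exact h7 i hi
        · rw [← hz0 i]
          exact h8 i hi
      · rintro ⟨h6, h7, h8⟩
        refine ⟨fun i j hj => ?_, fun i hi => ?_, fun i hi => ?_⟩
        · rw [h5 i j hj]
          exact h6 i j hj
        · rw [hz0 i]
          exact h7 i hi
        · rw [hz0 i]
          exact h8 i hi
    have hQ : Function.update z p w ∈ QQ m c τ (fun i => (i, (0 : Fin (2 * N + 1 + 1)))) i0 ↔
        z ∈ QQ m c τ (fun i => (i, (0 : Fin (2 * N + 1 + 1)))) i0 := by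
      unfold QQ
      simp only [Set.mem_ofPred_eq, hz0]
    have hvv : ∀ k, vv m c δ i0 s (Function.update z p w) k = vv m c δ i0 (s + 1) z k := by
      intro k
      unfold vv
      rcases lt_trichotomy k (s + 1) with hk | hk | hk
      · rw [if_pos (by omega), if_pos (by omega)]
        refine (h3 m (cb c) δ (arc z)).2.1 k _ ?_ k le_rfl
        intro i k' hk'
        exact coeff_arc_update z i0 (s + 1) hsN w i k' (by omega)
      · subst hk
        rw [if_neg (by omega), if_pos le_rfl]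
        have h6 := (h3 m (cb c) δ (arc (Function.update z p 0))).2.2 (s + 1) i0 (z p) (by omega)
        rw [← arc_update z i0 (s + 1) hsN] at h6
        rw [h6, hδ, filter_del]
        simp only [constantCoeff_arc]
        rw [coeff_arc _ _ _ hsN]
        show Function.update z p w p = _
        rw [Function.update_self, hw]
        simp only [hc0]
        ring
      · rw [if_neg (by omega), if_neg (by omega)]
        exact coeff_arc_update z i0 (s + 1) hsN w i0 k (by omega)
    have hC : Function.update z p w ∈ CC A m c e δ l i0 s ↔ z ∈ CC A m c e δ l i0 (s + 1) := by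
      unfold CC
      simp only [Set.mem_ofPred_eq, hz0, hvv]
    constructor
    · rintro ⟨h6, h7, h8⟩
      exact ⟨hY.2 h6, hQ.2 h7, hC.2 h8⟩
    · rintro ⟨h6, h7, h8⟩
      exact ⟨hY.1 h6, hQ.1 h7, hC.1 h8⟩

theorem steps (h2 : S_Sub) (h3 : S_Tay) (M : Meas K R) (A : Fin n → ℕ) (m : Fin r → Fin n → ℕ)
    (c : Fin r → K) (e : ℕ) (x : Fin n → K) (N : ℕ) (u : Fin n → ℕ) (l : ℕ) (i0 : Fin n)
    (hl : l ≤ 2 * N + 1 - u i0) (s : ℕ) (hs : s ≤ l) :
    M.χ _ (Y0 x N u ∩ (QQ m c (amin m u) (fun i => (i, 0)) i0 ∩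
        CC A m c e (del m u) l i0 s)) =
      M.χ _ (Y0 x N u ∩ (QQ m c (amin m u) (fun i => (i, 0)) i0 ∩
        CC A m c e (del m u) l i0 0)) := by
  induction s with
  | zero => rfl
  | succ s ih => rw [step h2 h3 M A m c e x N u l i0 hl s hs, ih (by omega)]

end Step

section Base

variable {K : Type} [Field K] {n r : ℕ} {R : Type} [CommRing R]

/-- the positions `(i0, k)`, `1 ≤ k ≤ l` -/
def EE (N l : ℕ) (i0 : Fin n) : Finset (Fin n × Fin (2 * N + 1 + 1)) :=
  Finset.univ.filter fun p => p.1 = i0 ∧ 0 < (p.2 : ℕ) ∧ (p.2 : ℕ) ≤ l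

theorem mem_EE {N l : ℕ} {i0 : Fin n} {p : Fin n × Fin (2 * N + 1 + 1)} :
    p ∈ EE N l i0 ↔ p.1 = i0 ∧ 0 < (p.2 : ℕ) ∧ (p.2 : ℕ) ≤ l := by
  simp [EE]

theorem card_EE (N l : ℕ) (i0 : Fin n) (hl : l < 2 * N + 1 + 1) : (EE N l i0).card = l := by
  have h : (EE N l i0).image (fun p => (p.2 : ℕ)) = Finset.Icc 1 l := by
    ext k
    simp only [Finset.mem_image, mem_EE, Finset.mem_Icc]
    constructor
    · rintro ⟨p, ⟨_, h1, h2⟩, rfl⟩
      exact ⟨h1, h2⟩
    · rintro ⟨h1, h2⟩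
      exact ⟨(i0, ⟨k, by omega⟩), ⟨rfl, h1, h2⟩, rfl⟩
  have hinj : Set.InjOn (fun p : Fin n × Fin (2 * N + 1 + 1) => (p.2 : ℕ))
      (EE N l i0 : Set (Fin n × Fin (2 * N + 1 + 1))) := by
    intro p hp q hq hpq
    have h1 := (mem_EE.1 (Finset.mem_coe.1 hp)).1
    have h2 := (mem_EE.1 (Finset.mem_coe.1 hq)).1
    exact Prod.ext (h1.trans h2.symm) (Fin.ext hpq)
  rw [← Finset.card_image_of_injOn hinj, h, Nat.card_Icc]
  omega

theorem constr_B1 (A : Fin n → ℕ) (m : Fin r → Fin n → ℕ) (c : Fin r → K) (e : ℕ)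
    (x : Fin n → K) (J : Finset (Fin n)) (τ : Finset (Fin r)) :
    Constr (B1 A m c e x J τ) := by
  refine Constr.and ?_ (Constr.and ?_ (Constr.and ?_ (Constr.and ?_ ?_)))
  · exact Constr.all fun i => Constr.imp' fun _ => Constr.eq (IsPF.coord _) (IsPF.const _)
  · exact Constr.ballFinset _ fun i _ => Constr.ne (IsPF.coord _) IsPF.zero
  · exact Constr.ballFinset _ fun i _ => Constr.eq (IsPF.coord _) IsPF.one
  · exact Constr.eqz (IsPF_gbar m c τ some)
  · exact Constr.eq ((IsPF_prod A some).mul ((IsPF.coord none).pow e)) IsPF.one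

theorem base (h1 : S_Free) (h3 : S_Tay) (M : Meas K R) (A : Fin n → ℕ) (m : Fin r → Fin n → ℕ)
    (c : Fin r → K) (e : ℕ) (x : Fin n → K) (J : Finset (Fin n)) (hJ : ∀ i, i ∈ J ↔ x i = 0)
    (he : 0 < e) (N : ℕ) (u : Fin n → ℕ) (hA : Adm J u) (hf : ford A m e u ≤ N) (l : ℕ)
    (hl : 1 ≤ l) (i0 : Fin n) (hi0 : i0 ∉ free A m J (amin m u)) (hl2 : l ≤ 2 * N + 1 - u i0) :
    M.χ _ (Y0 x N u ∩ (QQ m c (amin m u) (fun i => (i, 0)) i0 ∩
        CC A m c e (del m u) l i0 0)) * M.L ^ l =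
      M.χ _ (B1 A m c e x J (amin m u) ∩ QQ m c (amin m u) some i0) *
        (M.L - 1) ^ ((free A m J (amin m u)).filter fun i => u i ≤ N).card *
        M.L ^ ((free A m J (amin m u)).filter fun i => ¬ u i ≤ N).card *
        M.L ^ (∑ i, (2 * N + 1 - u i)) := by
  classical
  set τ := amin m u with hτ
  set δ := del m u with hδ
  set Fr := free A m J τ with hFr
  have hFJ : ∀ i ∈ Fr, i ∈ J ∧ A i = 0 ∧ ∀ j ∈ τ, m j i = 0 := fun i hi =>
    (mem_free A m J τ i).1 hi
  have hlN : l < 2 * N + 1 + 1 := by omega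
  have h00 : ((0 : Fin (2 * N + 1 + 1)) : ℕ) = 0 := rfl
  set T : Set (Pt K (Fin n × Fin (2 * N + 1 + 1))) :=
    QQ m c τ (fun i => (i, 0)) i0 ∩ CC A m c e δ l i0 0 with hT
  have hTc : Constr T := (constr_QQ m c τ _ i0).inter (constr_CC A m c e δ l i0 0)
  -- the values of `v_k` at level `0`
  have hv0 : ∀ y : Pt K (Fin n × Fin (2 * N + 1 + 1)),
      vv m c δ i0 0 y 0 = gbar m (cb c) τ (fun i => y (i, 0)) := by
    intro y
    unfold vv
    rw [if_pos le_rfl, (h3 m (cb c) δ (arc y)).1, hδ, filter_del]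
    simp only [constantCoeff_arc]
    exact rfl
  have hv1 : ∀ (y : Pt K (Fin n × Fin (2 * N + 1 + 1))) (k : ℕ) (hk : 0 < k)
      (hkN : k < 2 * N + 1 + 1), vv m c δ i0 0 y k = y (i0, ⟨k, hkN⟩) := by
    intro y k hk hkN
    unfold vv
    rw [if_neg (by omega), coeff_arc _ _ _ hkN]
  have hdep : ∀ y w : Pt K (Fin n × Fin (2 * N + 1 + 1)), (∀ i, i ∉ Fr → w (i, 0) = y (i, 0)) →
      (∀ p ∈ EE N l i0, w p = y p) → y ∈ T → w ∈ T := by
    intro y w h h' hy
    have hτ0 : ∀ i, (∃ j ∈ τ, m j i ≠ 0) → w (i, 0) = y (i, 0) := by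
      intro i hi
      refine h i fun hc => ?_
      obtain ⟨j, hj, hm⟩ := hi
      exact hm ((hFJ i hc).2.2 j hj)
    have hd : ∀ i, dgbar m (cb c) τ i (fun i => w (i, 0)) =
        dgbar m (cb c) τ i (fun i => y (i, 0)) := fun i => dgbar_congr m (cb c) τ i _ _ hτ0
    have hg : gbar m (cb c) τ (fun i => w (i, 0)) = gbar m (cb c) τ (fun i => y (i, 0)) :=
      gbar_congr m (cb c) τ _ _ hτ0
    have hp : ∏ i, w (i, 0) ^ A i = ∏ i, y (i, 0) ^ A i := by
      refine prod_congr' A (fun i => w (i, 0)) (fun i => y (i, 0)) fun i hi => ?_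
      exact h i fun hc => hi (hFJ i hc).2.1
    have hv : ∀ k ≤ l, vv m c δ i0 0 w k = vv m c δ i0 0 y k := by
      intro k hk
      rcases Nat.eq_zero_or_pos k with rfl | hk0
      · rw [hv0, hv0, hg]
      · rw [hv1 _ k hk0 (by omega), hv1 _ k hk0 (by omega)]
        exact h' _ (mem_EE.2 ⟨rfl, hk0, hk⟩)
    obtain ⟨⟨h5, h6⟩, h7, h8⟩ := hy
    refine ⟨⟨fun i hi => ?_, ?_⟩, fun k hk => ?_, ?_⟩
    · rw [hd]
      exact h5 i hi
    · rw [hd]
      exact h6
    · rw [hv k hk.le]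
      exact h7 k hk
    · rw [hp, hv l le_rfl]
      exact h8
  have hE : EE N l i0 ⊆ Qs N u := by
    intro p hp
    obtain ⟨h5, h6, h7⟩ := mem_EE.1 hp
    refine mem_Qs.2 ⟨h6, ?_⟩
    rw [h5]
    omega
  have key := freeN h1 M x N u Fr (fun i hi => (hJ i).1 (hFJ i hi).1)
    (fun i hi => le_of_not_free A m e J u N he hA hf i hi) (EE N l i0) hE T hTc hdep
  rw [card_EE N l i0 hlN] at key
  rw [key]
  congr 3
  have hxJ : ∀ i, i ∉ J → x i ≠ 0 := fun i hi hc => hi ((hJ i).2 hc)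
  refine M.iso _ _ (constr_Nrm x N Fr _ T hTc)
    ((constr_B1 A m c e x J τ).inter (constr_QQ m c τ some i0))
    (fun y o => match o with
      | none => y (i0, ⟨l, hlN⟩)
      | some i => y (i, 0))
    (fun z p => if (p.2 : ℕ) = 0 then z (some p.1) else
      if p = (i0, ⟨l, hlN⟩) then z none else 0) ?_ ?_ ?_ ?_ ?_ ?_
  · refine regularOn_poly (fun o => ?_) _
    cases o with
    | none => exact IsPF.coord _
    | some i => exact IsPF.coord _
  · refine regularOn_poly (fun p => ?_) _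
    by_cases h : (p.2 : ℕ) = 0
    · simpa only [if_pos h] using IsPF.coord (K := K) (some p.1)
    · by_cases h' : p = (i0, ⟨l, hlN⟩)
      · simpa only [if_neg h, if_pos h'] using IsPF.coord (K := K) (none : Option (Fin n))
      · simpa only [if_neg h, if_neg h'] using IsPF.zero (K := K)
  · rintro y ⟨⟨hy1, hy2, hy3, hy4⟩, hy5, hy6, hy7⟩
    refine ⟨⟨?_, ?_, hy4, ?_, ?_⟩, hy5⟩
    · intro i hi
      exact hy3 i fun hc => hi ((hJ i).2 hc)
    · intro i hi
      by_cases h : i ∈ Fr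
      · show y (i, 0) ≠ 0
        rw [hy4 i h]
        exact one_ne_zero
      · exact hy2 i h
    · have := hy6 0 hl
      rw [hv0] at this
      exact this
    · rw [hv1 y l hl hlN] at hy7
      exact hy7
  · rintro z ⟨⟨hz1, hz2, hz3, hz4, hz5⟩, hz6⟩
    set y : Pt K (Fin n × Fin (2 * N + 1 + 1)) := (fun p => if (p.2 : ℕ) = 0 then z (some p.1) else
      if p = (i0, ⟨l, hlN⟩) then z none else 0) with hy
    have hy0 : ∀ i, y (i, 0) = z (some i) := fun i => if_pos h00
    have hyl : y (i0, ⟨l, hlN⟩) = z none := by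
      show (if l = 0 then z (some i0) else
        if ((i0, ⟨l, hlN⟩) : Fin n × Fin (2 * N + 1 + 1)) = (i0, ⟨l, hlN⟩) then z none else 0) = _
      rw [if_neg (by omega), if_pos rfl]
    change y ∈ Nrm x N Fr (EE N l i0) T
    refine ⟨⟨?_, ?_, ?_, ?_⟩, ?_, ?_, ?_⟩
    · intro p hp hpE
      show (if (p.2 : ℕ) = 0 then z (some p.1) else
        if p = (i0, ⟨l, hlN⟩) then z none else 0) = 0
      rw [if_neg hp.ne', if_neg]
      rintro rfl
      exact hpE (mem_EE.2 ⟨rfl, hp, le_rfl⟩)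
    · intro i hi
      rw [hy0]
      by_cases h : i ∈ J
      · exact hz2 i h
      · rw [hz1 i h]
        exact (map_ne_zero _).2 (hxJ i h)
    · intro i hi
      rw [hy0]
      exact hz1 i fun hc => hi ((hJ i).1 hc)
    · intro i hi
      rw [hy0]
      exact hz3 i hi
    · show (∀ i, i < i0 → dgbar m (cb c) τ i (fun i => y (i, 0)) = 0) ∧
        dgbar m (cb c) τ i0 (fun i => y (i, 0)) ≠ 0
      simp only [hy0]
      exact hz6
    · intro k hk
      rcases Nat.eq_zero_or_pos k with rfl | hk0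
      · rw [hv0]
        simp only [hy0]
        exact hz4
      · rw [hv1 _ k hk0 (by omega)]
        show (if k = 0 then z (some i0) else
          if ((i0, ⟨k, _⟩) : Fin n × Fin (2 * N + 1 + 1)) = (i0, ⟨l, hlN⟩) then z none else 0) = 0
        rw [if_neg (by omega), if_neg]
        intro hc
        have := congrArg (fun p : Fin n × Fin (2 * N + 1 + 1) => (p.2 : ℕ)) hc
        simp at this
        omega
    · show (∏ i, y (i, 0) ^ A i) * (vv m c δ i0 0 y l) ^ e = 1
      rw [hv1 y l hl hlN, hyl]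
      simp only [hy0]
      exact hz5
  · rintro y ⟨⟨hy1, hy2, hy3, hy4⟩, hy5, hy6, hy7⟩
    funext p
    show (if (p.2 : ℕ) = 0 then y (p.1, 0) else
      if p = (i0, ⟨l, hlN⟩) then y (i0, ⟨l, hlN⟩) else 0) = y p
    by_cases h : (p.2 : ℕ) = 0
    · rw [if_pos h]
      congr 1
      refine Prod.ext rfl ?_
      exact Fin.ext h.symm
    · rw [if_neg h]
      by_cases h' : p = (i0, ⟨l, hlN⟩)
      · rw [if_pos h', h']
      · rw [if_neg h']
        by_cases hE' : p ∈ EE N l i0
        · obtain ⟨h8, h9, h10⟩ := mem_EE.1 hE'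
          have hlt : (p.2 : ℕ) < l := by
            rcases Nat.lt_or_ge (p.2 : ℕ) l with h11 | h11
            · exact h11
            · exfalso
              apply h'
              exact Prod.ext h8 (Fin.ext (le_antisymm h10 h11))
          have := hy6 (p.2 : ℕ) hlt
          rw [hv1 y _ h9 p.2.isLt] at this
          rw [← this]
          congr 1
          exact Prod.ext h8.symm rfl
        · exact (hy1 p (Nat.pos_of_ne_zero h) hE').symm
  · rintro z _
    funext o
    cases o with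
    | none =>
      show (if l = 0 then z (some i0) else
        if ((i0, ⟨l, hlN⟩) : Fin n × Fin (2 * N + 1 + 1)) = (i0, ⟨l, hlN⟩) then z none else 0) = _
      rw [if_neg (by omega), if_pos rfl]
    | some i => exact if_pos h00

end Base

theorem main (h1 : S_Free) (h2 : S_Sub) (h3 : S_Tay) (h4 : S_Non) : S_StC := by
  intro K _ _ R _ M n r A m c e x J hJ hAff hc hr he N hN u hA hu l hl hf
  classical
  set τ := amin m u with hτ
  set δ := del m u with hδ
  have hτne : τ.Nonempty := amin_nonempty m u hr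
  have hcb : ∀ j, cb c j ≠ 0 := fun j => (map_ne_zero _).2 (hc j)
  have hlN : l ≤ N := by
    have : l ≤ e * l := Nat.le_mul_of_pos_left _ he
    omega
  have hfN : ford A m e u ≤ N := by omega
  set W : Set (Pt K (Fin n × Fin (2 * N + 1 + 1))) :=
    {y | (∀ k < l, PowerSeries.coeff k (gser m (cb c) δ (arc y)) = 0) ∧
        (∏ i, y (i, 0) ^ A i) *
          (PowerSeries.coeff l (gser m (cb c) δ (arc y))) ^ e = 1} with hW
  have hWC : ∀ i0, W = CC A m c e δ l i0 l := by
    intro i0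
    have hv : ∀ (y : Pt K (Fin n × Fin (2 * N + 1 + 1))) (k : ℕ), k ≤ l →
        vv m c δ i0 l y k = PowerSeries.coeff k (gser m (cb c) δ (arc y)) := fun y k hk =>
      if_pos hk
    ext y
    constructor
    · rintro ⟨h5, h6⟩
      refine ⟨fun k hk => ?_, ?_⟩
      · rw [hv y k hk.le]
        exact h5 k hk
      · rw [hv y l le_rfl]
        exact h6
    · rintro ⟨h5, h6⟩
      refine ⟨fun k hk => ?_, ?_⟩
      · rw [← hv y k hk.le]
        exact h5 k hk
      · rw [← hv y l le_rfl]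
        exact h6
  have hWc : Constr W := by
    refine Constr.and ?_ ?_
    · exact Constr.allLt l fun k _ => Constr.eqz (IsPA_gser m c δ k)
    · exact Constr.eq ((IsPF_prod A fun i => (i, 0)).mul ((IsPA_gser m c δ l).pow e)) IsPF.one
  have e1 : M.χ _ (Y0 x N u ∩ W) = ∑ i0, M.χ _ ((Y0 x N u ∩ W) ∩
      QQ m c τ (fun i => (i, (0 : Fin (2 * N + 1 + 1)))) i0) := by
    refine χ_cover M _ _ ((constr_Y0 x N u).inter hWc) (fun i0 => constr_QQ m c τ _ i0)
      (fun a b h => QQ_disjoint m c τ _ a b h) ?_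
    rintro y ⟨⟨hy1, hy2, hy3⟩, hy4, hy5⟩
    refine QQ_cover m c τ _ y ?_
    refine h4 m (cb c) τ (fun i => y (i, 0)) hAff hcb hτne ?_ ?_
    · rintro i ⟨j, hj, hm⟩
      refine hy2 i (le_of_not_free A m e J u N he hA hfN i ?_)
      intro hcf
      exact hm (((mem_free A m J τ i).1 hcf).2.2 j hj)
    · have := hy4 0 hl
      rw [(h3 m (cb c) δ (arc y)).1, hδ, filter_del] at this
      simp only [constantCoeff_arc] at this
      exact this
  have e2 : M.χ _ (B1 A m c e x J τ) = ∑ i0, M.χ _ (B1 A m c e x J τ ∩ QQ m c τ some i0) := by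
    refine χ_cover M _ _ (constr_B1 A m c e x J τ) (fun i0 => constr_QQ m c τ _ i0)
      (fun a b h => QQ_disjoint m c τ _ a b h) ?_
    rintro z ⟨hz1, hz2, hz3, hz4, hz5⟩
    refine QQ_cover m c τ _ z ?_
    refine h4 m (cb c) τ (fun i => z (some i)) hAff hcb hτne ?_ hz4
    intro i _
    by_cases h : i ∈ J
    · exact hz2 i h
    · rw [hz1 i h]
      exact (map_ne_zero _).2 fun hc => h ((hJ i).2 hc)
  rw [e1, e2, Finset.sum_mul, Finset.sum_mul, Finset.sum_mul, Finset.sum_mul]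
  refine Finset.sum_congr rfl fun i0 _ => ?_
  by_cases hi0 : i0 ∈ free A m J τ
  · have hd : ∀ z : Fin n → AlgebraicClosure K, dgbar m (cb c) τ i0 z = 0 := fun z =>
      dgbar_zero m (cb c) τ i0 z ((mem_free A m J τ i0).1 hi0).2.2
    have h5 : (Y0 x N u ∩ W) ∩ QQ m c τ (fun i => (i, (0 : Fin (2 * N + 1 + 1)))) i0 = ∅ := by
      rw [Set.eq_empty_iff_forall_notMem]
      rintro y ⟨_, _, h6⟩
      exact h6 (hd _)
    have h6 : B1 A m c e x J τ ∩ QQ m c τ some i0 = ∅ := by
      rw [Set.eq_empty_iff_forall_notMem]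
      rintro y ⟨_, _, h6⟩
      exact h6 (hd _)
    rw [h5, h6, χ_empty, χ_empty]
    ring
  · have hui : u i0 ≤ N := le_of_not_free A m e J u N he hA hfN i0 hi0
    have hl2 : l ≤ 2 * N + 1 - u i0 := by omega
    rw [← base h1 h3 M A m c e x J hJ he N u hA hfN l hl i0 hi0 hl2,
      ← steps h2 h3 M A m c e x N u l i0 hl2 l le_rfl, ← hWC i0]
    congr 2
    rw [Set.inter_assoc, Set.inter_comm W]

end Pool.Agent.W749.MT.StC
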