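import Pool.Agent.W749.MT.Com

/-!
# Project MT, part STB: the strata with `l = 0`
-/

set_option autoImplicit false

namespace Pool.Agent.W749.MT.StB

open Pool.Agent.W428.MOT Pool.Agent.W749.MT
open Pool.Agent.W426.SM (AffInd gord ford)

theorem main (h1 : S_Free) (h2 : S_Tay) : S_StB := by
  intro K _ _ R _ M n r A m c e x J hJ hAff hc hr he N hN u hA hu hf
  classical
  set τ := amin m u with hτ
  set Fr := free A m J τ with hFr
  have hFJ : ∀ i ∈ Fr, i ∈ J ∧ A i = 0 ∧ ∀ j ∈ τ, m j i = 0 := fun i hi =>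
    (mem_free A m J τ i).1 hi
  set T : Set (Pt K (Fin n × Fin (2 * N + 1 + 1))) :=
    {y | (∏ i, y (i, 0) ^ A i) * (gbar m (cb c) τ (fun i => y (i, 0))) ^ e = 1} with hT
  have hTc : Constr T := by
    refine Constr.eq ?_ IsPF.one
    exact (IsPF_prod A (fun i => (i, 0))).mul ((IsPF_gbar m c τ (fun i => (i, 0))).pow e)
  have hTe : {y : Pt K (Fin n × Fin (2 * N + 1 + 1)) | (∏ i, y (i, 0) ^ A i) *
        (PowerSeries.coeff 0 (gser m (cb c) (del m u) (arc y))) ^ e = 1} = T := by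
    ext y
    simp only [hT, Set.mem_ofPred_eq]
    rw [(h2 m (cb c) (del m u) (arc y)).1, filter_del]
    simp only [constantCoeff_arc]
    exact Iff.rfl
  have hdep : ∀ y w : Pt K (Fin n × Fin (2 * N + 1 + 1)), (∀ i, i ∉ Fr → w (i, 0) = y (i, 0)) →
      (∀ p ∈ (∅ : Finset (Fin n × Fin (2 * N + 1 + 1))), w p = y p) → y ∈ T → w ∈ T := by
    intro y w h _ hy
    simp only [hT, Set.mem_ofPred_eq] at hy ⊢
    rw [← hy]
    congr 1
    · refine prod_congr' A (fun i => w (i, 0)) (fun i => y (i, 0)) fun i hi => ?_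
      refine h i fun hc => hi (hFJ i hc).2.1
    · congr 1
      refine gbar_congr m (cb c) τ _ _ fun i hi => ?_
      refine h i fun hc => ?_
      obtain ⟨j, hj, hm⟩ := hi
      exact hm ((hFJ i hc).2.2 j hj)
  have key := freeN h1 M x N u Fr (fun i hi => (hJ i).1 (hFJ i hi).1)
    (fun i hi => le_of_not_free A m e J u N he hA hf.le i hi) ∅ (Finset.empty_subset _) T hTc hdep
  rw [Finset.card_empty, pow_zero, mul_one] at key
  rw [hTe, key]
  congr 3
  have hB : Constr (B0 A m c e x J τ) := by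
    refine Constr.and ?_ (Constr.and ?_ (Constr.and ?_ ?_))
    · exact Constr.all fun i => Constr.imp' fun _ => Constr.eq (IsPF.coord _) (IsPF.const _)
    · exact Constr.ballFinset _ fun i _ => Constr.ne (IsPF.coord _) IsPF.zero
    · exact Constr.ballFinset _ fun i _ => Constr.eq (IsPF.coord _) IsPF.one
    · exact Constr.eq ((IsPF_prod A id).mul ((IsPF_gbar m c τ id).pow e)) IsPF.one
  refine M.iso _ _ (constr_Nrm x N Fr ∅ T hTc) hB (fun y i => y (i, 0))
    (fun z p => if (p.2 : ℕ) = 0 then z p.1 else 0) ?_ ?_ ?_ ?_ ?_ ?_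
  · exact regularOn_poly (fun i => IsPF.coord _) _
  · refine regularOn_poly (fun p => ?_) _
    by_cases h : (p.2 : ℕ) = 0
    · simpa only [if_pos h] using IsPF.coord (K := K) p.1
    · simpa only [if_neg h] using IsPF.zero (K := K)
  · rintro y ⟨⟨hy1, hy2, hy3, hy4⟩, hy5⟩
    refine ⟨?_, ?_, hy4, hy5⟩
    · intro i hi
      exact hy3 i fun hc => hi ((hJ i).2 hc)
    · intro i hi
      by_cases h : i ∈ Fr
      · show y (i, 0) ≠ 0
        rw [hy4 i h]
        exact one_ne_zero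
      · exact hy2 i h
  · rintro z ⟨hz1, hz2, hz3, hz4⟩
    have h0 : ((0 : Fin (2 * N + 1 + 1)) : ℕ) = 0 := rfl
    have hxJ : ∀ i, i ∉ J → x i ≠ 0 := fun i hi hc => hi ((hJ i).2 hc)
    refine ⟨⟨?_, ?_, ?_, ?_⟩, ?_⟩
    · intro p hp _
      exact if_neg hp.ne'
    · intro i hi
      show (if ((0 : Fin (2 * N + 1 + 1)) : ℕ) = 0 then z i else 0) ≠ 0
      rw [if_pos h0]
      by_cases h : i ∈ J
      · exact hz2 i h
      · rw [hz1 i h]
        exact (map_ne_zero _).2 (hxJ i h)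
    · intro i hi
      show (if ((0 : Fin (2 * N + 1 + 1)) : ℕ) = 0 then z i else 0) = _
      rw [if_pos h0]
      exact hz1 i fun hc => hi ((hJ i).1 hc)
    · intro i hi
      show (if ((0 : Fin (2 * N + 1 + 1)) : ℕ) = 0 then z i else 0) = _
      rw [if_pos h0]
      exact hz3 i hi
    · show (∏ i, (if ((0 : Fin (2 * N + 1 + 1)) : ℕ) = 0 then z i else 0) ^ A i) *
        (gbar m (cb c) τ (fun i => if ((0 : Fin (2 * N + 1 + 1)) : ℕ) = 0 then z i else 0)) ^ e = 1
      simp only [if_pos h0]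
      exact hz4
  · rintro y ⟨⟨hy1, hy2, hy3, hy4⟩, hy5⟩
    funext p
    show (if (p.2 : ℕ) = 0 then y (p.1, 0) else 0) = y p
    by_cases h : (p.2 : ℕ) = 0
    · rw [if_pos h]
      congr 1
      refine Prod.ext rfl ?_
      exact Fin.ext h.symm
    · rw [if_neg h]
      exact (hy1 p (Nat.pos_of_ne_zero h) (Finset.notMem_empty p)).symm
  · intro z _
    funext i
    show (if ((0 : Fin (2 * N + 1 + 1)) : ℕ) = 0 then z i else 0) = z i
    exact if_pos rfl

end Pool.Agent.W749.MT.StB
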