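import Pool.Agent.W428.MOT.Stm

/-!
# Project MT: free coordinates of the strata (common part of the tasks STB and STC)
-/

set_option autoImplicit false

namespace Pool.Agent.W749.MT

open Pool.Agent.W428.MOT
open Pool.Agent.W426.SM (AffInd gord ford)

section Gen

variable {K : Type} [Field K] {n : ℕ}

/-- the normalised stratum -/
def Nrm (x : Fin n → K) (N : ℕ) (Fr : Finset (Fin n)) (E : Finset (Fin n × Fin (2 * N + 1 + 1)))
    (T : Set (Pt K (Fin n × Fin (2 * N + 1 + 1)))) : Set (Pt K (Fin n × Fin (2 * N + 1 + 1))) :=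
  {y | (∀ p : Fin n × Fin (2 * N + 1 + 1), 0 < (p.2 : ℕ) → p ∉ E → y p = 0) ∧
    (∀ i, i ∉ Fr → y (i, 0) ≠ 0) ∧ (∀ i, x i ≠ 0 → y (i, 0) = algebraMap K _ (x i)) ∧
    ∀ i ∈ Fr, y (i, 0) = 1} ∩ T

/-- the positions that are not fixed -/
def Qs (N : ℕ) (u : Fin n → ℕ) : Finset (Fin n × Fin (2 * N + 1 + 1)) :=
  Finset.univ.filter fun p => 0 < (p.2 : ℕ) ∧ (p.2 : ℕ) ≤ 2 * N + 1 - u p.1

theorem mem_Qs {N : ℕ} {u : Fin n → ℕ} {p : Fin n × Fin (2 * N + 1 + 1)} :
    p ∈ Qs N u ↔ 0 < (p.2 : ℕ) ∧ (p.2 : ℕ) ≤ 2 * N + 1 - u p.1 := by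
  simp [Qs]

theorem card_Qs (N : ℕ) (u : Fin n → ℕ) : (Qs N u).card = ∑ i, (2 * N + 1 - u i) := by
  have h : ∀ i, ((Finset.univ : Finset (Fin (2 * N + 1 + 1))).filter
      fun j : Fin (2 * N + 1 + 1) => 0 < (j : ℕ) ∧ (j : ℕ) ≤ 2 * N + 1 - u i).card = 2 * N + 1 - u i := by
    intro i
    have : ((Finset.univ : Finset (Fin (2 * N + 1 + 1))).filter
        fun j : Fin (2 * N + 1 + 1) => 0 < (j : ℕ) ∧ (j : ℕ) ≤ 2 * N + 1 - u i).map Fin.valEmbedding =
        Finset.Icc 1 (2 * N + 1 - u i) := by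
      ext a
      simp only [Finset.mem_map, Finset.mem_filter, Finset.mem_univ, true_and,
        Fin.valEmbedding_apply, Finset.mem_Icc]
      constructor
      · rintro ⟨j, ⟨h1, h2⟩, rfl⟩
        exact ⟨h1, h2⟩
      · rintro ⟨h1, h2⟩
        exact ⟨⟨a, by omega⟩, ⟨h1, h2⟩, rfl⟩
    rw [← Finset.card_map Fin.valEmbedding, this, Nat.card_Icc]
    omega
  have e : Qs N u = ((Finset.univ : Finset (Fin n)).sigma (fun i =>
      (Finset.univ : Finset (Fin (2 * N + 1 + 1))).filter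
        fun j : Fin (2 * N + 1 + 1) => 0 < (j : ℕ) ∧ (j : ℕ) ≤ 2 * N + 1 - u i)).map
      ⟨fun s => (s.1, s.2), fun a b hab => by
        obtain ⟨a1, a2⟩ := a
        obtain ⟨b1, b2⟩ := b
        simp only [Prod.mk.injEq] at hab
        obtain ⟨h1, h2⟩ := hab
        subst h1
        subst h2
        rfl⟩ := by
    ext p
    simp only [mem_Qs, Finset.mem_map, Finset.mem_sigma, Finset.mem_filter, Finset.mem_univ,
      true_and, Function.Embedding.coeFn_mk]
    constructor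
    · intro hp
      exact ⟨⟨p.1, p.2⟩, hp, rfl⟩
    · rintro ⟨⟨i, j⟩, hp, rfl⟩
      exact hp
  rw [e, Finset.card_map, Finset.card_sigma]
  exact Finset.sum_congr rfl fun i _ => h i

theorem freeN (h1 : S_Free) {R : Type} [CommRing R] (M : Meas K R) (x : Fin n → K)
    (N : ℕ) (u : Fin n → ℕ)
    (Fr : Finset (Fin n)) (hx : ∀ i ∈ Fr, x i = 0) (hFr : ∀ i, i ∉ Fr → u i ≤ N)
    (E : Finset (Fin n × Fin (2 * N + 1 + 1))) (hE : E ⊆ Qs N u)
    (T : Set (Pt K (Fin n × Fin (2 * N + 1 + 1)))) (hT : Constr T)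
    (hdep : ∀ y w : Pt K (Fin n × Fin (2 * N + 1 + 1)), (∀ i, i ∉ Fr → w (i, 0) = y (i, 0)) →
      (∀ p ∈ E, w p = y p) → y ∈ T → w ∈ T) :
    M.χ _ (Y0 x N u ∩ T) * M.L ^ E.card =
      M.χ _ (Nrm x N Fr E T) * (M.L - 1) ^ (Fr.filter fun i => u i ≤ N).card *
        M.L ^ (Fr.filter fun i => ¬ u i ≤ N).card * M.L ^ (∑ i, (2 * N + 1 - u i)) := by
  classical
  set z0 : Fin (2 * N + 1 + 1) := 0 with hz0
  have hz0v : (z0 : ℕ) = 0 := rfl
  set F0 : Finset (Fin n × Fin (2 * N + 1 + 1)) :=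
    (Fr.filter fun i => u i ≤ N).image (fun i => (i, z0)) with hF0
  set F1a : Finset (Fin n × Fin (2 * N + 1 + 1)) :=
    (Fr.filter fun i => ¬ u i ≤ N).image (fun i => (i, z0)) with hF1a
  set a : Fin n × Fin (2 * N + 1 + 1) → K := fun p => if (p.2 : ℕ) = 0 then 1 else 0 with ha
  have hinj : Function.Injective (fun i : Fin n => (i, z0)) := fun i j h => (Prod.mk.inj h).1
  have hcF0 : F0.card = (Fr.filter fun i => u i ≤ N).card := Finset.card_image_of_injective _ hinj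
  have hcF1a : F1a.card = (Fr.filter fun i => ¬ u i ≤ N).card :=
    Finset.card_image_of_injective _ hinj
  have hmF0 : ∀ p, p ∈ F0 ↔ p.1 ∈ Fr ∧ u p.1 ≤ N ∧ p.2 = z0 := by
    intro p
    simp only [hF0, Finset.mem_image, Finset.mem_filter]
    constructor
    · rintro ⟨i, ⟨h1, h2⟩, rfl⟩
      exact ⟨h1, h2, rfl⟩
    · rintro ⟨h1, h2, h3⟩
      exact ⟨p.1, ⟨h1, h2⟩, by rw [← h3]⟩
  have hmF1a : ∀ p, p ∈ F1a ↔ p.1 ∈ Fr ∧ ¬ u p.1 ≤ N ∧ p.2 = z0 := by
    intro p
    simp only [hF1a, Finset.mem_image, Finset.mem_filter]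
    constructor
    · rintro ⟨i, ⟨h1, h2⟩, rfl⟩
      exact ⟨h1, h2, rfl⟩
    · rintro ⟨h1, h2, h3⟩
      exact ⟨p.1, ⟨h1, h2⟩, by rw [← h3]⟩
  have hdisj1 : Disjoint F1a (Qs N u \ E) := by
    rw [Finset.disjoint_left]
    intro p hp hq
    have h2 := ((hmF1a p).1 hp).2.2
    have h3 := (mem_Qs.1 (Finset.mem_sdiff.1 hq).1).1
    rw [h2] at h3
    exact absurd h3 (lt_irrefl 0)
  have hdisj : Disjoint F0 (F1a ∪ (Qs N u \ E)) := by
    rw [Finset.disjoint_left]
    intro p hp hq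
    obtain ⟨h2, h3, h4⟩ := (hmF0 p).1 hp
    rcases Finset.mem_union.1 hq with hq | hq
    · exact ((hmF1a p).1 hq).2.1 h3
    · have h5 := (mem_Qs.1 (Finset.mem_sdiff.1 hq).1).1
      rw [h4] at h5
      exact absurd h5 (lt_irrefl 0)
  set S : Set (Pt K (Fin n × Fin (2 * N + 1 + 1))) :=
    {y | (∀ p : Fin n × Fin (2 * N + 1 + 1), 2 * N + 1 - u p.1 < (p.2 : ℕ) → y p = 0) ∧
      (∀ i, i ∉ Fr → y (i, z0) ≠ 0) ∧ (∀ i, x i ≠ 0 → y (i, z0) = algebraMap K _ (x i))} ∩ T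
    with hS
  have hSc : Constr S := by
    refine Constr.inter ?_ hT
    refine Constr.and ?_ (Constr.and ?_ ?_)
    · refine Constr.all fun p => ?_
      refine Constr.imp' fun _ => ?_
      exact Constr.eqz (IsPF.coord p)
    · refine Constr.all fun i => ?_
      refine Constr.imp' fun _ => ?_
      exact Constr.ne (IsPF.coord _) IsPF.zero
    · refine Constr.all fun i => ?_
      refine Constr.imp' fun _ => ?_
      exact Constr.eq (IsPF.coord _) (IsPF.const _)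
  have hSdep : ∀ z w : Pt K (Fin n × Fin (2 * N + 1 + 1)),
      (∀ i, i ∉ F0 → i ∉ F1a ∪ (Qs N u \ E) → w i = z i) → z ∈ S → w ∈ S := by
    rintro z w h ⟨⟨hz1, hz2, hz3⟩, hz4⟩
    have hoff : ∀ i, i ∉ Fr → w (i, z0) = z (i, z0) := by
      intro i hi
      refine h (i, z0) ?_ ?_
      · intro hp
        exact hi ((hmF0 _).1 hp).1
      · intro hp
        rcases Finset.mem_union.1 hp with hp | hp
        · exact hi ((hmF1a _).1 hp).1
        · exact absurd (mem_Qs.1 (Finset.mem_sdiff.1 hp).1).1 (lt_irrefl 0)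
    refine ⟨⟨?_, ?_, ?_⟩, ?_⟩
    · intro p hp
      have hp0 : (p.2 : ℕ) ≠ 0 := by omega
      rw [h p ?_ ?_]
      · exact hz1 p hp
      · intro hq
        apply hp0
        rw [((hmF0 _).1 hq).2.2]
        rfl
      · intro hq
        rcases Finset.mem_union.1 hq with hq | hq
        · apply hp0
          rw [((hmF1a _).1 hq).2.2]
          rfl
        · have := (mem_Qs.1 (Finset.mem_sdiff.1 hq).1).2
          omega
    · intro i hi
      rw [hoff i hi]
      exact hz2 i hi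
    · intro i hi
      have hi' : i ∉ Fr := fun hc => hi (hx i hc)
      rw [hoff i hi']
      exact hz3 i hi
    · refine hdep z w hoff ?_ hz4
      intro p hp
      have hpQ := mem_Qs.1 (hE hp)
      refine h p ?_ ?_
      · intro hq
        have := ((hmF0 _).1 hq).2.2
        rw [this] at hpQ
        exact absurd hpQ.1 (lt_irrefl 0)
      · intro hq
        rcases Finset.mem_union.1 hq with hq | hq
        · have := ((hmF1a _).1 hq).2.2
          rw [this] at hpQ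
          exact absurd hpQ.1 (lt_irrefl 0)
        · exact (Finset.mem_sdiff.1 hq).2 hp
  have key := h1 M S F0 (F1a ∪ (Qs N u \ E)) a hdisj hSc hSdep
  have e1 : S ∩ {z | ∀ i ∈ F0, z i ≠ 0} = Y0 x N u ∩ T := by
    ext y
    constructor
    · rintro ⟨⟨⟨hy1, hy2, hy3⟩, hy4⟩, hy5⟩
      refine ⟨⟨?_, ?_, hy3⟩, hy4⟩
      · intro i j hj
        exact hy1 (i, j) hj
      · intro i hi
        by_cases hf : i ∈ Fr
        · exact hy5 (i, z0) ((hmF0 _).2 ⟨hf, hi, rfl⟩)
        · exact hy2 i hf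
    · rintro ⟨⟨hy1, hy2, hy3⟩, hy4⟩
      refine ⟨⟨⟨?_, ?_, hy3⟩, hy4⟩, ?_⟩
      · intro p hp
        exact hy1 p.1 p.2 hp
      · intro i hi
        exact hy2 i (hFr i hi)
      · intro p hp
        obtain ⟨h2, h3, h4⟩ := (hmF0 p).1 hp
        have := hy2 p.1 h3
        have e : p = (p.1, z0) := by rw [← h4]
        rw [e]
        exact this
  have e2 : S ∩ {z | ∀ i ∈ F0 ∪ (F1a ∪ (Qs N u \ E)), z i = algebraMap K _ (a i)} =
      Nrm x N Fr E T := by
    have ha0 : ∀ i, a (i, z0) = 1 := fun i => by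
      show (if ((z0 : ℕ)) = 0 then (1 : K) else 0) = 1
      rw [if_pos hz0v]
    have ha1 : ∀ p : Fin n × Fin (2 * N + 1 + 1), 0 < (p.2 : ℕ) → a p = 0 := fun p hp => by
      simp only [ha]
      rw [if_neg hp.ne']
    ext y
    constructor
    · rintro ⟨⟨⟨hy1, hy2, hy3⟩, hy4⟩, hy5⟩
      refine ⟨⟨?_, hy2, hy3, ?_⟩, hy4⟩
      · intro p hp hpE
        rcases Nat.lt_or_ge (2 * N + 1 - u p.1) (p.2 : ℕ) with h | h
        · exact hy1 p h
        · have := hy5 p (Finset.mem_union_right _ (Finset.mem_union_right _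
            (Finset.mem_sdiff.2 ⟨mem_Qs.2 ⟨hp, h⟩, hpE⟩)))
          rw [this, ha1 p hp, map_zero]
      · intro i hi
        have hm : (i, z0) ∈ F0 ∪ (F1a ∪ (Qs N u \ E)) := by
          by_cases h : u i ≤ N
          · exact Finset.mem_union_left _ ((hmF0 _).2 ⟨hi, h, rfl⟩)
          · exact Finset.mem_union_right _ (Finset.mem_union_left _ ((hmF1a _).2 ⟨hi, h, rfl⟩))
        have := hy5 (i, z0) hm
        rw [this, ha0, map_one]
    · rintro ⟨⟨hy1, hy2, hy3, hy4⟩, hy5⟩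
      refine ⟨⟨⟨?_, hy2, hy3⟩, hy5⟩, ?_⟩
      · intro p hp
        refine hy1 p (by omega) fun hpE => ?_
        have := (mem_Qs.1 (hE hpE)).2
        omega
      · intro p hp
        have hfr0 : p.1 ∈ Fr → p.2 = z0 → y p = algebraMap K _ (a p) := by
          intro h1 h2
          have e : p = (p.1, z0) := by rw [← h2]
          rw [e, ha0, map_one]
          exact hy4 p.1 h1
        rcases Finset.mem_union.1 hp with hp | hp
        · obtain ⟨h2, h3, h4⟩ := (hmF0 p).1 hp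
          exact hfr0 h2 h4
        rcases Finset.mem_union.1 hp with hp | hp
        · obtain ⟨h2, h3, h4⟩ := (hmF1a p).1 hp
          exact hfr0 h2 h4
        · obtain ⟨h2, h3⟩ := Finset.mem_sdiff.1 hp
          have h4 := (mem_Qs.1 h2).1
          rw [hy1 p h4 h3, ha1 p h4, map_zero]
  have hcE : (Qs N u \ E).card + E.card = ∑ i, (2 * N + 1 - u i) := by
    rw [Finset.card_sdiff_add_card_eq_card hE, card_Qs]
  rw [e1, e2] at key
  rw [key, Finset.card_union_of_disjoint hdisj1, hcF0, hcF1a, pow_add, ← hcE, pow_add]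
  ring

end Gen

end Pool.Agent.W749.MT
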